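import Pool.Agent.H28.RC.Targets2

/-!
# The data from Brauer induction and reciprocity
-/

set_option autoImplicit false

open NumberField Complex

namespace Pool.Agent.H51.RC

open Pool.Agent.H28.RC Pool.Agent.H25.HK Pool.Agent.H25

theorem pf_CM0 : T_BRA → T_REC → T_FNR → T_TR → T_CM0 := by
  intro hBRA hREC hFNR hTR R
  obtain ⟨N, H, lam, n, hn⟩ := hBRA (R.K ≃ₐ[ℚ] R.K) R.V R.rho
  choose χ B hm hg using fun i => hREC R.K (H i) (lam i)
  choose m hm1 hm2 using hm
  obtain ⟨B0, hB0⟩ := hFNR R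
  refine ⟨{ N := N, H := H, χ := χ, n := n, B := B0 ∪ Finset.univ.biUnion B,
            m := ∏ i, m i, m_pos := ?_, val := ?_, good := ?_ }⟩
  · exact Nat.one_le_iff_ne_zero.2
      (Finset.prod_ne_zero_iff.2 fun i _ => Nat.one_le_iff_ne_zero.1 (hm1 i))
  · intro i I
    rcases hm2 i I with h | h
    · exact Or.inl h
    · right
      obtain ⟨c, hc⟩ := Finset.dvd_prod_of_mem m (Finset.mem_univ i)
      rw [hc, pow_mul, h, one_pow]
  · intro p hp k hk
    rw [Finset.mem_union, not_or] at hp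
    have hIn : R.In p = ⊥ := hB0 p hp.1
    have hBi : ∀ i, (p : ℕ) ∉ B i := fun i h =>
      hp.2 (Finset.mem_biUnion.2 ⟨i, Finset.mem_univ i, h⟩)
    have htr : LinearMap.trace ℂ R.V (R.fr p ^ k) =
        LinearMap.trace ℂ R.V (R.rho (R.Fr p ^ k)) := by
      rw [hTR R p k hk, hIn, finsum_eq_single _ (1 : (⊥ : Subgroup (R.K ≃ₐ[ℚ] R.K)))
        (fun x hx => absurd (Subsingleton.elim x 1) hx)]
      simp
    rw [htr, hn]
    refine Finset.sum_congr rfl fun i _ => ?_
    rw [hg i p p.2 (hBi i) (R.P p) (R.P_prime p) (R.P_mem p) (R.Fr p) (R.Fr_spec p) k hk]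

end Pool.Agent.H51.RC
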