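import Pool.Agent.H70.RC.Targets

/-!
# EXO: the exact algorithm
-/

set_option autoImplicit false

namespace Pool.Agent.H51.RC

open Finset Pool.Agent.H6.NB Pool.Agent.H70.OQ Pool.Agent.H70.EH Pool.Agent.H70.EI
open Pool.Agent.H78.XQ Pool.Agent.H70.RC

theorem pf_EXO (hEXA : T_EXA) (hORC : T_ORC) (hBAS : Pool.Agent.H70.RC.T_BAS)
    (hSTR : Pool.Agent.H70.RC.T_STR) : T_EXO := by
  classical
  intro V f D hD s
  obtain ⟨hO1, hO2, -⟩ := hORC V D
  have hblk : ∀ p : (Σ p : Bx, (Fin (2 * (hb p).length) → Bool) × VV (qs (hb p))) ⊕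
      (Σ p : Bx, Fin (wln (hb p)) → Bool),
      orc V D (Pool.Agent.H70.RC.str (.inr (.inr p))) = val D (.inr (.inr p)) := by
    intro p
    rw [hO1 _ (fun s' h => ?_), hBAS.1]
    have h1 : star D s' = Pool.Agent.H70.RC.str (.inr (.inl ⟨s', D.a s'⟩)) := rfl
    rw [h1] at h
    have h2 := hSTR.1 h
    simp at h2
  have hex : ∀ j : Fin s.length, (exact (hom s j)).prob (orc V D) = if D.a s j then 1 else 0 := by
    intro j
    have h1 : hom s j = hb ⟨s, j⟩ := rfl
    rw [h1]
    refine hEXA _ _ _ ?_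
    have h2 : cps (orc V D) (hb ⟨s, j⟩) = (D.c ⟨s, j⟩).1 := by
      funext u v
      exact hblk (.inl ⟨⟨s, j⟩, u, v⟩)
    have h3 : cst (orc V D) (hb ⟨s, j⟩) = (D.c ⟨s, j⟩).2 := by
      funext z
      exact hblk (.inr ⟨⟨s, j⟩, z⟩)
    rw [h2, h3]
    exact (hD.2 ⟨s, j⟩).2
  have hy : yesP (orc V D) s = if orc V D (star D s) then 1 else 0 := by
    unfold yesP
    rw [Finset.sum_eq_single (D.a s)]
    · rw [Finset.prod_eq_one, one_mul]
      · rfl
      · intro j _
        rw [hex j]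
        cases D.a s j <;> simp
    · intro a _ hne
      obtain ⟨j, hj⟩ := Function.ne_iff.1 hne
      rw [Finset.prod_eq_zero (Finset.mem_univ j), zero_mul]
      rw [hex j]
      revert hj
      cases a j <;> cases D.a s j <;> simp
    · intro h
      exact absurd (Finset.mem_univ _) h
  rw [hy]
  constructor
  · intro h
    rw [if_pos ((hO2 s).2 h)]
  · intro h
    rw [if_neg fun h' => h ((hO2 s).1 h')]

end Pool.Agent.H51.RC
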