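import Pool.Agent.H70.RC.Targets

/-!
# MUM: the masses
-/

set_option autoImplicit false

namespace Pool.Agent.H51.RC

open Finset Pool.Agent.H6.NB Pool.Agent.H70.OQ Pool.Agent.H70.EH Pool.Agent.H70.EI
open Pool.Agent.H78.XQ Pool.Agent.H70.RC

theorem pf_MUM (hMAS : T_MAS) : T_MUM := by
  classical
  intro n N
  have hA0 : (0 : ℝ) ≤ nAA n N := by unfold nAA; positivity
  refine ⟨fun σ => ?_, ?_, fun σ hσ p => ?_⟩
  · unfold Pool.Agent.H70.RC.mu
    exact mul_nonneg (by positivity) (Finset.prod_nonneg fun p _ =>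
      ((hMAS _ _ _ _).2.2 _).1 _)
  · have h1 : ∀ a : Ad n N, ∀ h : Ar n N, ∑ P : Bl n N, mu (a, h, P) ≤ 1 / nAA n N := by
      intro a h
      have h2 : ∑ P : Bl n N, mu (a, h, P) = 1 / nAA n N * ∏ p : Bi n N, ∑ c : CB (hl p),
          mB (qs (hl p)) (hl p).length (rns (hl p)) (wln (hl p)) (a p.1 p.2) c := by
        rw [Fintype.prod_sum, Finset.mul_sum]
        rfl
      rw [h2]
      have h3 : ∏ p : Bi n N, ∑ c : CB (hl p),
          mB (qs (hl p)) (hl p).length (rns (hl p)) (wln (hl p)) (a p.1 p.2) c ≤ 1 :=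
        Finset.prod_le_one (fun p _ => Finset.sum_nonneg fun c _ => ((hMAS _ _ _ _).2.2 _).1 _)
          fun p _ => ((hMAS _ _ _ _).2.2 _).2
      calc 1 / nAA n N * _ ≤ 1 / nAA n N * 1 := mul_le_mul_of_nonneg_left h3 (by positivity)
        _ = _ := mul_one _
    calc ∑ σ : Se n N, mu σ = ∑ a : Ad n N, ∑ h : Ar n N, ∑ P : Bl n N, mu (a, h, P) := by
          rw [Fintype.sum_prod_type]
          refine Finset.sum_congr rfl fun a _ => ?_
          rw [Fintype.sum_prod_type]
      _ ≤ ∑ _a : Ad n N, ∑ _h : Ar n N, 1 / nAA n N :=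
          Finset.sum_le_sum fun a _ => Finset.sum_le_sum fun h _ => h1 a h
      _ = nAA n N / nAA n N := by
          rw [Finset.sum_const, Finset.sum_const, Finset.card_univ, Finset.card_univ, nsmul_eq_mul,
            nsmul_eq_mul]
          unfold nAA
          ring
      _ ≤ 1 := div_self_le_one _
  · by_contra hcon
    apply hσ
    unfold Pool.Agent.H70.RC.mu
    rw [Finset.prod_eq_zero (Finset.mem_univ p), mul_zero]
    unfold mB
    exact if_neg hcon

end Pool.Agent.H51.RC
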